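import Pool.Agent.W921.VP.DefsC

set_option autoImplicit false

namespace Pool.Agent.W358.VP

open Pool.Agent.W921.VP
open FirstOrder Set
open FirstOrder.Language (Theory BoundedFormula)

variable {L : FirstOrder.Language.{0, 0}}

/-- satisfaction -/
def Rz {M : Type} (S : L.Structure M) {n : ℕ} (φ : L.BoundedFormula Empty n) (μ : Fin n → M) :
    Prop :=
  @BoundedFormula.Realize L M S Empty n φ Empty.elim μ

theorem rz_all {M : Type} (S : L.Structure M) {n : ℕ} (φ : L.BoundedFormula Empty (n + 1))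
    (μ : Fin n → M) : Rz S φ.all μ ↔ ∀ x : M, Rz S φ (Fin.snoc μ x) := by
  let _ := S
  exact BoundedFormula.realize_all

theorem rz_ex {M : Type} (S : L.Structure M) {n : ℕ} (φ : L.BoundedFormula Empty (n + 1))
    (μ : Fin n → M) : Rz S φ.ex μ ↔ ∃ x : M, Rz S φ (Fin.snoc μ x) := by
  let _ := S
  exact BoundedFormula.realize_ex

theorem rz_imp {M : Type} (S : L.Structure M) {n : ℕ} (φ ψ : L.BoundedFormula Empty n)
    (μ : Fin n → M) : Rz S (φ.imp ψ) μ ↔ (Rz S φ μ → Rz S ψ μ) := by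
  let _ := S
  exact BoundedFormula.realize_imp

theorem rz_falsum {M : Type} (S : L.Structure M) {n : ℕ} (μ : Fin n → M) :
    ¬ Rz S (BoundedFormula.falsum : L.BoundedFormula Empty n) μ := by
  intro h
  exact h

theorem term_var [L.IsRelational] {n : ℕ} (t : L.Term (Empty ⊕ Fin n)) :
    ∃ l : Fin n, t = Language.Term.var (Sum.inr l) := by
  cases t with
  | var a =>
    rcases a with x | l
    · exact x.elim
    · exact ⟨l, rfl⟩
  | func f ts => exact isEmptyElim f

theorem rz_equal {M : Type} (S : L.Structure M) {n : ℕ} (l l' : Fin n) (μ : Fin n → M) :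
    Rz S ((Language.Term.var (Sum.inr l)).bdEqual (Language.Term.var (Sum.inr l')) :
      L.BoundedFormula Empty n) μ ↔ μ l = μ l' := by
  let _ := S
  exact BoundedFormula.realize_bdEqual _ _

theorem rz_rel {M : Type} (S : L.Structure M) {n k : ℕ} (R : L.Relations k) (v : Fin k → Fin n)
    (μ : Fin n → M) :
    Rz S (R.boundedFormula fun i => (Language.Term.var (Sum.inr (v i)) : L.Term (Empty ⊕ Fin n))) μ
      ↔ S.RelMap R (fun i => μ (v i)) := by
  let _ := S
  exact BoundedFormula.realize_rel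

/-- induction for quantifier-free formulas -/
theorem qf_ind [L.IsRelational] {n : ℕ} {P : L.BoundedFormula Empty n → Prop}
    (h0 : P BoundedFormula.falsum)
    (h1 : ∀ l l' : Fin n, P ((Language.Term.var (Sum.inr l)).bdEqual
      (Language.Term.var (Sum.inr l'))))
    (h2 : ∀ (k : ℕ) (R : L.Relations k) (v : Fin k → Fin n),
      P (R.boundedFormula fun i => (Language.Term.var (Sum.inr (v i)) : L.Term (Empty ⊕ Fin n))))
    (h3 : ∀ φ ψ, P φ → P ψ → P (φ.imp ψ)) {φ : L.BoundedFormula Empty n} (hφ : φ.IsQF) : P φ := by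
  induction hφ with
  | falsum => exact h0
  | of_isAtomic h =>
    cases h with
    | equal t t' =>
      obtain ⟨l, rfl⟩ := term_var t
      obtain ⟨l', rfl⟩ := term_var t'
      exact h1 l l'
    | rel R ts =>
      choose v hv using fun i => term_var (ts i)
      have : ts = fun i => Language.Term.var (Sum.inr (v i)) := funext hv
      rw [this]
      exact h2 _ R v
  | imp _ _ ih1 ih2 => exact h3 _ _ ih1 ih2

theorem qf_emb [L.IsRelational] {M N : Type} {S : L.Structure M} {S' : L.Structure N} {e : M → N}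
    (he : Emb S S' e) {n : ℕ} {φ : L.BoundedFormula Empty n} (hφ : φ.IsQF) (μ : Fin n → M) :
    Rz S φ μ ↔ Rz S' φ (fun l => e (μ l)) := by
  refine qf_ind (P := fun φ => Rz S φ μ ↔ Rz S' φ (fun l => e (μ l))) ?_ ?_ ?_ ?_ hφ
  · exact iff_of_false (rz_falsum _ _) (rz_falsum _ _)
  · intro l l'
    rw [rz_equal, rz_equal, he.1.eq_iff]
  · intro k R v
    rw [rz_rel, rz_rel]
    exact he.2 k R _
  · intro φ ψ h1 h2
    rw [rz_imp, rz_imp, h1, h2]

/-- the ultrapower situation -/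
structure Sit (S : L.Structure ℕ) (W : Set (ℕ → ℕ → ℕ)) {M : Type} (S' : L.Structure M)
    (U : Ultrafilter ℕ) (r : M → ℕ → ℕ) (c : ℕ → M) : Prop where
  rel : ∀ (n : ℕ) (R : L.Relations n) (s : Fin n → M),
    S'.RelMap R s ↔ ∀ᶠ i in (U : Filter ℕ), S.RelMap R (fun j => r (s j) i)
  inj : ∀ m m', (∀ᶠ i in (U : Filter ℕ), r m i = r m' i) → m = m'
  cst : ∀ n, ∀ᶠ i in (U : Filter ℕ), r (c n) i = n
  clo : ∀ g ∈ W, ∀ m m', ∃ m'', ∀ᶠ i in (U : Filter ℕ), r m'' i = g (r m i) (r m' i)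

theorem Sit.mono {S : L.Structure ℕ} {W W' : Set (ℕ → ℕ → ℕ)} {M : Type} {S' : L.Structure M}
    {U : Ultrafilter ℕ} {r : M → ℕ → ℕ} {c : ℕ → M} (h : Sit S W S' U r c) (hW : W' ⊆ W) :
    Sit S W' S' U r c :=
  ⟨h.rel, h.inj, h.cst, fun g hg => h.clo g (hW hg)⟩

theorem los [L.IsRelational] {S : L.Structure ℕ} {W : Set (ℕ → ℕ → ℕ)} {M : Type}
    {S' : L.Structure M} {U : Ultrafilter ℕ} {r : M → ℕ → ℕ} {c : ℕ → M} (h : Sit S W S' U r c)
    {n : ℕ} {φ : L.BoundedFormula Empty n} (hφ : φ.IsQF) (μ : Fin n → M) :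
    Rz S' φ μ ↔ ∀ᶠ i in (U : Filter ℕ), Rz S φ (fun l => r (μ l) i) := by
  refine qf_ind (P := fun φ => Rz S' φ μ ↔
    ∀ᶠ i in (U : Filter ℕ), Rz S φ (fun l => r (μ l) i)) ?_ ?_ ?_ ?_ hφ
  · refine iff_of_false (rz_falsum _ _) fun h' => ?_
    obtain ⟨i, hi⟩ := h'.exists
    exact rz_falsum _ _ hi
  · intro l l'
    simp only [rz_equal]
    constructor
    · intro h1
      rw [h1]
      exact Filter.Eventually.of_forall fun _ => rfl
    · exact h.inj _ _
  · intro k R v
    simp only [rz_rel]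
    exact h.rel k R _
  · intro φ ψ h1 h2
    simp only [rz_imp]
    rw [h1, h2, Ultrafilter.eventually_imp]

theorem snoc_app {α β : Type} {n : ℕ} (h : α → β) (f : Fin n → α) (x : α) :
    (fun l => h ((Fin.snoc f x : Fin (n + 1) → α) l)) =
      (Fin.snoc (fun l => h (f l)) (h x) : Fin (n + 1) → β) := by
  funext l
  refine Fin.lastCases ?_ (fun l => ?_) l
  · rw [Fin.snoc_last, Fin.snoc_last]
  · rw [Fin.snoc_castSucc, Fin.snoc_castSucc]

/-- existential formulas -/
theorem lvl1 [L.IsRelational] (S : L.Structure ℕ) {c0 a b n : ℕ} {φ : L.BoundedFormula Empty n}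
    (hp : Pre c0 a b φ) : c0 = 0 → a = 0 → ∀ F : Fin n → ℕ → ℕ → ℕ,
    (∀ u v, Rz S φ (fun l => F l u v)) → ∃ W : Set (ℕ → ℕ → ℕ), W.Countable ∧
      ∀ {M : Type} {S' : L.Structure M} {U : Ultrafilter ℕ} {r : M → ℕ → ℕ} {c : ℕ → M},
      Sit S W S' U r c → ∀ (m m' : M) (μ : Fin n → M),
      (∀ l, ∀ᶠ i in (U : Filter ℕ), r (μ l) i = F l (r m i) (r m' i)) →
      ∀ (N : Type) (S'' : L.Structure N) (e : M → N), Emb S' S'' e →
        Rz S'' φ (fun l => e (μ l)) := by
  induction hp with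
  | qf hψ =>
    intro _ _ F hF
    refine ⟨∅, countable_empty, ?_⟩
    intro M S' U r c hS m m' μ hμ N S'' e he
    rw [← qf_emb he hψ, los hS hψ]
    have h1 := Filter.eventually_all.2 hμ
    refine h1.mono fun i hi => ?_
    have h2 : (fun l => r (μ l) i) = fun l => F l (r m i) (r m' i) := funext hi
    rw [h2]
    exact hF _ _
  | ex hψ ih =>
    intro h0 h0' F hF
    have hex : ∀ u v, ∃ x, Rz S _ (Fin.snoc (fun l => F l u v) x) :=
      fun u v => (rz_ex S _ _).1 (hF u v)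
    choose g hg using hex
    obtain ⟨W, hW, h⟩ := ih rfl rfl (Fin.snoc F g) (fun u v => by
      rw [snoc_app (fun f : ℕ → ℕ → ℕ => f u v) F g]
      exact hg u v)
    refine ⟨insert g W, hW.insert g, ?_⟩
    intro M S' U r c hS m m' μ hμ N S'' e he
    obtain ⟨m'', hm⟩ := hS.clo g (mem_insert _ _) m m'
    rw [rz_ex]
    refine ⟨e m'', ?_⟩
    rw [← snoc_app e μ m'']
    refine h (hS.mono (subset_insert _ _)) m m' (Fin.snoc μ m'') ?_ N S'' e he
    intro l
    refine Fin.lastCases ?_ (fun l => ?_) l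
    · simp only [Fin.snoc_last]
      exact hm
    · simp only [Fin.snoc_castSucc]
      exact hμ l
  | all _ _ =>
    intro _ h
    omega
  | wit _ _ =>
    intro h
    omega

/-- the conclusion for a formula with constants -/
def Concl (S : L.Structure ℕ) {n : ℕ} (φ : L.BoundedFormula Empty n) (w : Fin n → ℕ) : Prop :=
  ∃ W : Set (ℕ → ℕ → ℕ), W.Countable ∧
    ∀ {M : Type} {S' : L.Structure M} {U : Ultrafilter ℕ} {r : M → ℕ → ℕ} {c : ℕ → M},
    Sit S W S' U r c → ∀ (N : Type) (S'' : L.Structure N) (j : range c → N), Nonempty N →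
      Covers S' (range c) S'' j → Rz S'' φ (fun l => j ⟨c (w l), mem_range_self _⟩)

theorem lvl2_0 [L.IsRelational] (S : L.Structure ℕ) {b n : ℕ} {φ : L.BoundedFormula Empty n}
    (hp : Pre 0 0 b φ) (w : Fin n → ℕ) (hw : Rz S φ w) : Concl S φ w := by
  obtain ⟨W, hW, h⟩ := lvl1 S hp rfl rfl (fun l _ _ => w l) (fun u v => hw)
  refine ⟨W, hW, ?_⟩
  intro M S' U r c hS N S'' j hN hC
  obtain ⟨x⟩ := hN
  obtain ⟨e, he, hej, ⟨m, hm⟩, -⟩ := hC x x
  have h1 := h hS m m (fun l => c (w l)) (fun l => hS.cst (w l)) N S'' e he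
  have h2 : (fun l => e (c (w l))) = fun l => j ⟨c (w l), mem_range_self _⟩ :=
    funext fun l => hej ⟨c (w l), mem_range_self _⟩
  rwa [h2] at h1

theorem lvl2_1 [L.IsRelational] (S : L.Structure ℕ) {b n : ℕ}
    {φ : L.BoundedFormula Empty (n + 1)}
    (hp : Pre 0 0 b φ) (w : Fin n → ℕ) (hw : Rz S φ.all w) : Concl S φ.all w := by
  obtain ⟨W, hW, h⟩ := lvl1 S hp rfl rfl
    (Fin.snoc (fun l _ _ => w l) (fun u _ => u) : Fin (n + 1) → ℕ → ℕ → ℕ) (fun u v => by
      rw [snoc_app (fun f : ℕ → ℕ → ℕ => f u v)]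
      exact (rz_all S _ _).1 hw u)
  refine ⟨W, hW, ?_⟩
  intro M S' U r c hS N S'' j _ hC
  rw [rz_all]
  intro x
  obtain ⟨e, he, hej, ⟨m, hm⟩, -⟩ := hC x x
  have h1 := h hS m m (Fin.snoc (fun l => c (w l)) m : Fin (n + 1) → M) (fun l => by
    refine Fin.lastCases ?_ (fun l => ?_) l
    · simp only [Fin.snoc_last]
      exact Filter.Eventually.of_forall fun _ => trivial
    · simp only [Fin.snoc_castSucc]
      exact hS.cst (w l)) N S'' e he
  rw [snoc_app, hm] at h1
  have h2 : (fun l => e (c (w l))) = fun l => j ⟨c (w l), mem_range_self _⟩ :=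
    funext fun l => hej ⟨c (w l), mem_range_self _⟩
  rwa [h2] at h1

theorem lvl2_2 [L.IsRelational] (S : L.Structure ℕ) {b n : ℕ}
    {φ : L.BoundedFormula Empty (n + 1 + 1)}
    (hp : Pre 0 0 b φ) (w : Fin n → ℕ) (hw : Rz S φ.all.all w) : Concl S φ.all.all w := by
  obtain ⟨W, hW, h⟩ := lvl1 S hp rfl rfl
    (Fin.snoc (Fin.snoc (fun l _ _ => w l) (fun u _ => u) : Fin (n + 1) → ℕ → ℕ → ℕ)
      (fun _ v => v) : Fin (n + 1 + 1) → ℕ → ℕ → ℕ) (fun u v => by
      rw [snoc_app (fun f : ℕ → ℕ → ℕ => f u v), snoc_app (fun f : ℕ → ℕ → ℕ => f u v)]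
      exact (rz_all S _ _).1 ((rz_all S _ _).1 hw u) v)
  refine ⟨W, hW, ?_⟩
  intro M S' U r c hS N S'' j _ hC
  rw [rz_all]
  intro x
  rw [rz_all]
  intro y
  obtain ⟨e, he, hej, ⟨m, hm⟩, ⟨m', hm'⟩⟩ := hC x y
  have h1 := h hS m m' (Fin.snoc (Fin.snoc (fun l => c (w l)) m : Fin (n + 1) → M) m' :
    Fin (n + 1 + 1) → M) (fun l => by
    refine Fin.lastCases ?_ (fun l => ?_) l
    · simp only [Fin.snoc_last]
      exact Filter.Eventually.of_forall fun _ => trivial
    · simp only [Fin.snoc_castSucc]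
      refine Fin.lastCases ?_ (fun l => ?_) l
      · simp only [Fin.snoc_last]
        exact Filter.Eventually.of_forall fun _ => trivial
      · simp only [Fin.snoc_castSucc]
        exact hS.cst (w l)) N S'' e he
  rw [snoc_app, snoc_app, hm, hm'] at h1
  have h2 : (fun l => e (c (w l))) = fun l => j ⟨c (w l), mem_range_self _⟩ :=
    funext fun l => hej ⟨c (w l), mem_range_self _⟩
  rwa [h2] at h1

theorem lvl2 [L.IsRelational] (S : L.Structure ℕ) {a b n : ℕ} {φ : L.BoundedFormula Empty n}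
    (hp : Pre 0 a b φ) (ha : a ≤ 2) (w : Fin n → ℕ) (hw : Rz S φ w) : Concl S φ w := by
  cases hp with
  | qf h => exact lvl2_0 S (Pre.qf h) w hw
  | ex h => exact lvl2_0 S (Pre.ex h) w hw
  | all h =>
    cases h with
    | qf h => exact lvl2_1 S (Pre.qf h) w hw
    | ex h => exact lvl2_1 S (Pre.ex h) w hw
    | all h =>
      cases h with
      | qf h => exact lvl2_2 S (Pre.qf h) w hw
      | ex h => exact lvl2_2 S (Pre.ex h) w hw
      | all h => omega

theorem lvl3 [L.IsRelational] (S : L.Structure ℕ) {c0 a b n : ℕ} {φ : L.BoundedFormula Empty n}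
    (hp : Pre c0 a b φ) : a ≤ 2 → ∀ w : Fin n → ℕ, Rz S φ w → Concl S φ w := by
  induction hp with
  | qf h => exact fun ha w hw => lvl2 S (Pre.qf h) ha w hw
  | ex h _ => exact fun ha w hw => lvl2 S (Pre.ex h) ha w hw
  | all h _ => exact fun ha w hw => lvl2 S (Pre.all h) ha w hw
  | wit _ ih =>
    intro ha w hw
    obtain ⟨x, hx⟩ := (rz_ex S _ _).1 hw
    obtain ⟨W, hW, h⟩ := ih ha _ hx
    refine ⟨W, hW, ?_⟩
    intro M S' U r c hS N S'' j hN hC
    have h1 := h hS N S'' j hN hC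
    rw [rz_ex]
    refine ⟨j ⟨c x, mem_range_self _⟩, ?_⟩
    rw [snoc_app (fun y : ℕ => j ⟨c y, mem_range_self _⟩)] at h1
    exact h1

theorem countable_sentence [L.IsRelational] [Countable L.Symbols] : Countable L.Sentence := by
  have h3 : Cardinal.mk (Σ n, L.BoundedFormula Empty n) ≤ Cardinal.aleph0 := by
    refine BoundedFormula.card_le.trans ?_
    refine max_le le_rfl ?_
    rw [Cardinal.mk_eq_zero Empty]
    simp only [zero_add, Cardinal.lift_id]
    exact Cardinal.mk_le_aleph0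
  have h4 : Countable (Σ n, L.BoundedFormula Empty n) := Cardinal.mk_le_aleph0_iff.1 h3
  exact (sigma_mk_injective (β := fun n => L.BoundedFormula Empty n) (i := 0)).countable

theorem realize_iff {M : Type} (S : L.Structure M) (σ : L.Sentence) (x : Fin 0 → M) :
    @Language.Sentence.Realize L M S σ ↔ Rz S (σ : L.BoundedFormula Empty 0) x := by
  have h1 : (Empty.elim : Empty → M) = default := Subsingleton.elim _ _
  have h2 : x = default := Subsingleton.elim _ _
  unfold Rz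
  rw [h1, h2]
  exact Iff.rfl

theorem task : S_UPB := by
  intro L hL hR T hT S hS
  have hcs : Countable L.Sentence := countable_sentence
  have hex : ∀ σ : T, Concl S (σ.1 : L.BoundedFormula Empty 0) Fin.elim0 := by
    rintro ⟨σ, hσ⟩
    obtain ⟨c, a, b, ha, hp⟩ := hT σ hσ
    refine lvl3 S hp ha _ ((realize_iff S σ _).1 ?_)
    exact hS.realize_of_mem σ hσ
  choose W hW h using hex
  have hcT : Countable T := inferInstance
  have hWc : (⋃ σ, W σ).Countable := countable_iUnion hW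
  obtain ⟨Z, hZ⟩ := (hWc.insert (fun _ _ => 0)).exists_eq_range (insert_nonempty _ _)
  refine ⟨Z, ?_⟩
  intro Z' hZ' M S' U r c h1 h2 h3 h4 N S'' j hN hC
  have hsit : ∀ σ, Sit S (W σ) S' U r c := by
    intro σ
    refine ⟨h1, h2, h3, fun g hg m m' => ?_⟩
    have h5 : g ∈ range Z := by
      rw [← hZ]
      exact mem_insert_of_mem _ (mem_iUnion.2 ⟨σ, hg⟩)
    obtain ⟨k, rfl⟩ := h5
    obtain ⟨l, hl⟩ := hZ' k
    rw [← hl]
    exact h4 l m m'
  refine ⟨fun σ hσ => ?_⟩
  rw [realize_iff S'' σ]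
  exact h ⟨σ, hσ⟩ (hsit _) N S'' j hN hC

end Pool.Agent.W358.VP
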